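import Mathlib

/-!
# MP_4595ea_al, Q1 disproved

Let `A` be the ring with additive group `ℤ^6`, basis `1, x, y, z, p, q` and nonzero products of
non-identity basis elements `x y = p`, `x z = z x = p`, `y z = z y = q`.  The ring `R = A[t]/(t²)` is
centrally essential and free of rank 12 as an abelian group.  The essential right ideal
`(x + t) R + t(ℤ p + ℤ q)` is not a left ideal.
-/

namespace Pool.Agent.Results.MP_4595ea_al.EssentialRightIdeal

/-- `R` is centrally essential: for every nonzero `a` there are nonzero central `x`, `y` with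
`a x = y`. -/
def CentrallyEssential (R : Type) [Ring R] : Prop :=
  ∀ a : R, a ≠ 0 → ∃ x y : R, x ∈ Subring.center R ∧ y ∈ Subring.center R ∧ x ≠ 0 ∧ y ≠ 0 ∧
    a * x = y

/-- An additive subgroup that is a right ideal. -/
def IsRightIdeal {R : Type} [Ring R] (I : AddSubgroup R) : Prop :=
  ∀ x ∈ I, ∀ r : R, x * r ∈ I

/-- A right ideal `I` is essential: it meets every nonzero right ideal nontrivially. -/
def IsEssentialRightIdeal {R : Type} [Ring R] (I : AddSubgroup R) : Prop :=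
  IsRightIdeal I ∧ ∀ J : AddSubgroup R, IsRightIdeal J → J ≠ ⊥ → I ⊓ J ≠ ⊥

/-- The additive group `ℤ^6`, coordinates with respect to `1, x, y, z, p, q`. -/
def A : Type := Fin 6 → ℤ

instance : AddCommGroup A := inferInstanceAs (AddCommGroup (Fin 6 → ℤ))

lemma add_app (x y : A) (i : Fin 6) : (x + y) i = x i + y i := rfl

lemma zero_app (i : Fin 6) : (0 : A) i = 0 := rfl

/-- the product -/
def mulA (x y : A) : A :=
  ![x 0 * y 0, x 0 * y 1 + x 1 * y 0, x 0 * y 2 + x 2 * y 0, x 0 * y 3 + x 3 * y 0,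
    x 0 * y 4 + x 4 * y 0 + x 1 * y 2 + x 1 * y 3 + x 3 * y 1,
    x 0 * y 5 + x 5 * y 0 + x 2 * y 3 + x 3 * y 2]

/-- the identity -/
def oneA : A := ![1, 0, 0, 0, 0, 0]

instance : Ring A where
  mul := mulA
  one := oneA
  left_distrib x y z := by
    change mulA x (y + z) = mulA x y + mulA x z
    funext i
    rw [add_app]
    fin_cases i <;> simp [mulA, add_app] <;> ring
  right_distrib x y z := by
    change mulA (x + y) z = mulA x z + mulA y z
    funext i
    rw [add_app]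
    fin_cases i <;> simp [mulA, add_app] <;> ring
  zero_mul x := by
    change mulA 0 x = 0
    funext i
    fin_cases i <;> simp [mulA, zero_app]
  mul_zero x := by
    change mulA x 0 = 0
    funext i
    fin_cases i <;> simp [mulA, zero_app]
  mul_assoc x y z := by
    change mulA (mulA x y) z = mulA x (mulA y z)
    funext i
    fin_cases i <;> simp [mulA] <;> ring
  one_mul x := by
    change mulA oneA x = x
    funext i
    fin_cases i <;> simp [mulA, oneA]
  mul_one x := by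
    change mulA x oneA = x
    funext i
    fin_cases i <;> simp [mulA, oneA]
  zsmul := zsmulRec
  neg_add_cancel := neg_add_cancel

lemma mul0 (x y : A) : (x * y) 0 = x 0 * y 0 := rfl
lemma mul1 (x y : A) : (x * y) 1 = x 0 * y 1 + x 1 * y 0 := rfl
lemma mul2 (x y : A) : (x * y) 2 = x 0 * y 2 + x 2 * y 0 := rfl
lemma mul3 (x y : A) : (x * y) 3 = x 0 * y 3 + x 3 * y 0 := rfl
lemma mul4 (x y : A) : (x * y) 4 =
    x 0 * y 4 + x 4 * y 0 + x 1 * y 2 + x 1 * y 3 + x 3 * y 1 := rfl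
lemma mul5 (x y : A) : (x * y) 5 = x 0 * y 5 + x 5 * y 0 + x 2 * y 3 + x 3 * y 2 := rfl

lemma ext6 {x y : A} (h0 : x 0 = y 0) (h1 : x 1 = y 1) (h2 : x 2 = y 2) (h3 : x 3 = y 3)
    (h4 : x 4 = y 4) (h5 : x 5 = y 5) : x = y := by
  funext i
  fin_cases i
  exacts [h0, h1, h2, h3, h4, h5]

/-- elements without `x`, `y` component are central in `A` -/
lemma comm_of (c : A) (h1 : c 1 = 0) (h2 : c 2 = 0) (a : A) : a * c = c * a := by
  apply ext6 <;> simp only [mul0, mul1, mul2, mul3, mul4, mul5, h1, h2] <;> ring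

/-- the ring of the counterexample -/
def R : Type := DualNumber A

instance : Ring R := inferInstanceAs (Ring (DualNumber A))

/-- the component in `A` -/
def R.fst (a : R) : A := TrivSqZeroExt.fst (a : DualNumber A)

/-- the component in `t A` -/
def R.snd (a : R) : A := TrivSqZeroExt.snd (a : DualNumber A)

lemma R.ext' {a b : R} (h1 : a.fst = b.fst) (h2 : a.snd = b.snd) : a = b :=
  TrivSqZeroExt.ext h1 h2

lemma fst_add' (a b : R) : (a + b).fst = a.fst + b.fst := rfl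

lemma snd_add' (a b : R) : (a + b).snd = a.snd + b.snd := rfl

lemma fst_neg' (a : R) : (-a).fst = -a.fst := rfl

lemma snd_neg' (a : R) : (-a).snd = -a.snd := rfl

lemma fst_mul' (a b : R) : (a * b).fst = a.fst * b.fst := rfl

lemma snd_mul' (a b : R) : (a * b).snd = a.fst * b.snd + a.snd * b.fst := rfl

/-- the element `a + t b` -/
def mk (a b : A) : R := ((a, b) : A × A)

lemma fst_mk (a b : A) : (mk a b).fst = a := rfl

lemma snd_mk (a b : A) : (mk a b).snd = b := rfl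

lemma central_of (c d : A) (h1 : c 1 = 0) (h2 : c 2 = 0) (h3 : d 1 = 0) (h4 : d 2 = 0) :
    mk c d ∈ Subring.center R := by
  rw [Subring.mem_center_iff]
  intro g
  apply R.ext'
  · rw [fst_mul', fst_mul', fst_mk]
    exact comm_of c h1 h2 _
  · rw [snd_mul', snd_mul', fst_mk, snd_mk, comm_of c h1 h2, comm_of d h3 h4, add_comm]

/-- basis elements -/
def ex : A := ![0, 1, 0, 0, 0, 0]
/-- basis elements -/
def ey : A := ![0, 0, 1, 0, 0, 0]
/-- basis elements -/
def ez : A := ![0, 0, 0, 1, 0, 0]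
/-- basis elements -/
def ep : A := ![0, 0, 0, 0, 1, 0]

lemma ne_of_app {x : A} (i : Fin 6) (h : x i ≠ 0) : x ≠ 0 := fun h0 => h (by rw [h0, zero_app])

/-- for `a ≠ 0` in `A` there is `c` central in `A` with `a c` nonzero and central -/
lemma ess_A (a : A) (ha : a ≠ 0) : ∃ c : A, c 1 = 0 ∧ c 2 = 0 ∧ (a * c) 1 = 0 ∧ (a * c) 2 = 0 ∧
    a * c ≠ 0 := by
  by_cases h12 : a 1 = 0 ∧ a 2 = 0
  · refine ⟨1, rfl, rfl, ?_, ?_, ?_⟩
    · rw [mul_one]; exact h12.1
    · rw [mul_one]; exact h12.2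
    · rwa [mul_one]
  · by_cases h0 : a 0 = 0
    · refine ⟨ez, rfl, rfl, ?_, ?_, ?_⟩
      · rw [mul1]; simp [ez, h0]
      · rw [mul2]; simp [ez, h0]
      · by_cases h1 : a 1 = 0
        · have h2 : a 2 ≠ 0 := fun h => h12 ⟨h1, h⟩
          apply ne_of_app 5
          rw [mul5]; simp [ez, h2]
        · apply ne_of_app 4
          rw [mul4]; simp [ez, h1]
    · refine ⟨ep, rfl, rfl, ?_, ?_, ?_⟩
      · rw [mul1]; simp [ep]
      · rw [mul2]; simp [ep]
      · apply ne_of_app 4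
        rw [mul4]; simp [ep, h0]

lemma mk_ne {a b : A} (h : a ≠ 0 ∨ b ≠ 0) : mk a b ≠ 0 := by
  intro h0
  have h1 : a = 0 := congrArg R.fst h0
  have h2 : b = 0 := congrArg R.snd h0
  rcases h with h | h
  · exact h h1
  · exact h h2

lemma centrallyEssential : CentrallyEssential R := by
  intro a ha
  by_cases h : a.fst = 0
  · have h2 : a.snd ≠ 0 := by
      intro h2
      exact ha (R.ext' h h2)
    obtain ⟨c, c1, c2, d1, d2, hne⟩ := ess_A a.snd h2
    have hc : c ≠ 0 := by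
      rintro rfl; exact hne (mul_zero _)
    refine ⟨mk c 0, mk 0 (a.snd * c), central_of _ _ c1 c2 rfl rfl,
      central_of _ _ rfl rfl d1 d2, mk_ne (Or.inl hc), mk_ne (Or.inr hne), ?_⟩
    apply R.ext'
    · rw [fst_mul', fst_mk, fst_mk, h, zero_mul]
    · rw [snd_mul', fst_mk, snd_mk, snd_mk, mul_zero, zero_add]
  · obtain ⟨c, c1, c2, d1, d2, hne⟩ := ess_A a.fst h
    have hc : c ≠ 0 := by
      rintro rfl; exact hne (mul_zero _)
    refine ⟨mk 0 c, mk 0 (a.fst * c), central_of _ _ rfl rfl c1 c2,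
      central_of _ _ rfl rfl d1 d2, mk_ne (Or.inr hc), mk_ne (Or.inr hne), ?_⟩
    apply R.ext'
    · rw [fst_mul', fst_mk, fst_mk, mul_zero]
    · rw [snd_mul', fst_mk, snd_mk, snd_mk, mul_zero, add_zero]

lemma neg_app (x : A) (i : Fin 6) : (-x) i = -(x i) := rfl

/-- the right ideal `(x + t) R + t(ℤ p + ℤ q)` -/
def I : AddSubgroup R where
  carrier := {r | r.fst 0 = 0 ∧ r.fst 2 = 0 ∧ r.fst 3 = 0 ∧ r.fst 5 = 0 ∧ r.snd 0 = r.fst 1 ∧
    r.snd 2 + r.snd 3 = r.fst 4}
  zero_mem' := ⟨rfl, rfl, rfl, rfl, rfl, rfl⟩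
  add_mem' := by
    rintro a b ⟨h0, h2, h3, h5, h1, h4⟩ ⟨k0, k2, k3, k5, k1, k4⟩
    rw [Set.mem_ofPred_eq, fst_add', snd_add']
    simp only [add_app]
    refine ⟨?_, ?_, ?_, ?_, ?_, ?_⟩ <;> linarith
  neg_mem' := by
    rintro a ⟨h0, h2, h3, h5, h1, h4⟩
    rw [Set.mem_ofPred_eq, fst_neg', snd_neg']
    simp only [neg_app]
    refine ⟨?_, ?_, ?_, ?_, ?_, ?_⟩ <;> linarith

lemma mem_I (r : R) : r ∈ I ↔ r.fst 0 = 0 ∧ r.fst 2 = 0 ∧ r.fst 3 = 0 ∧ r.fst 5 = 0 ∧
    r.snd 0 = r.fst 1 ∧ r.snd 2 + r.snd 3 = r.fst 4 := Iff.rfl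

lemma right_I : IsRightIdeal I := by
  rintro a ha r
  rw [mem_I] at ha ⊢
  obtain ⟨h0, h2, h3, h5, h1, h4⟩ := ha
  simp only [fst_mul', snd_mul', add_app, mul0, mul1, mul2, mul3, mul4, mul5, h0, h2, h3, h5, h1,
    ← h4]
  refine ⟨?_, ?_, ?_, ?_, ?_, ?_⟩ <;> ring

lemma mem_of_snd (b : A) (h0 : b 0 = 0) (h2 : b 2 = 0) (h3 : b 3 = 0) : mk 0 b ∈ I := by
  rw [mem_I, fst_mk, snd_mk]
  refine ⟨rfl, rfl, rfl, rfl, h0, ?_⟩
  rw [h2, h3]; rfl

/-- for `a ≠ 0` in `A` there is `c` with `a c` nonzero in the span of `p`, `q` -/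
lemma soc_A (a : A) (ha : a ≠ 0) : ∃ c : A, (a * c) 0 = 0 ∧ (a * c) 2 = 0 ∧ (a * c) 3 = 0 ∧
    a * c ≠ 0 := by
  by_cases h0 : a 0 = 0
  · by_cases h12 : a 1 = 0 ∧ a 2 = 0
    · by_cases h3 : a 3 = 0
      · refine ⟨1, ?_, ?_, ?_, ?_⟩
        · rw [mul_one]; exact h0
        · rw [mul_one]; exact h12.2
        · rw [mul_one]; exact h3
        · rwa [mul_one]
      · refine ⟨ey, ?_, ?_, ?_, ?_⟩
        · rw [mul0, h0, zero_mul]
        · rw [mul2]; simp [ey, h0]
        · rw [mul3]; simp [ey]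
        · apply ne_of_app 5
          rw [mul5]; simp [ey, h3]
    · refine ⟨ez, ?_, ?_, ?_, ?_⟩
      · rw [mul0, h0, zero_mul]
      · rw [mul2]; simp [ez]
      · rw [mul3]; simp [ez, h0]
      · by_cases h1 : a 1 = 0
        · have h2 : a 2 ≠ 0 := fun h => h12 ⟨h1, h⟩
          apply ne_of_app 5
          rw [mul5]; simp [ez, h2]
        · apply ne_of_app 4
          rw [mul4]; simp [ez, h1]
  · refine ⟨ep, ?_, ?_, ?_, ?_⟩
    · rw [mul0]; simp [ep]
    · rw [mul2]; simp [ep]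
    · rw [mul3]; simp [ep]
    · apply ne_of_app 4
      rw [mul4]; simp [ep, h0]

lemma essential_I : IsEssentialRightIdeal I := by
  refine ⟨right_I, fun J hJ hne hbot => hne ?_⟩
  rw [AddSubgroup.eq_bot_iff_forall]
  intro a haJ
  by_contra ha
  by_cases h : a.fst = 0
  · have h2 : a.snd ≠ 0 := fun h2 => ha (R.ext' h h2)
    obtain ⟨c, h0, h2, h3, hc⟩ := soc_A a.snd h2
    have e : a * mk c 0 = mk 0 (a.snd * c) := by
      apply R.ext'
      · rw [fst_mul', fst_mk, fst_mk, h, zero_mul]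
      · rw [snd_mul', fst_mk, snd_mk, snd_mk, mul_zero, zero_add]
    have hm : mk 0 (a.snd * c) ∈ I ⊓ J :=
      ⟨mem_of_snd _ h0 h2 h3, by rw [← e]; exact hJ a haJ _⟩
    rw [hbot] at hm
    exact mk_ne (Or.inr hc) ((AddSubgroup.mem_bot).1 hm)
  · obtain ⟨c, h0, h2, h3, hc⟩ := soc_A a.fst h
    have e : a * mk 0 c = mk 0 (a.fst * c) := by
      apply R.ext'
      · rw [fst_mul', fst_mk, fst_mk, mul_zero]
      · rw [snd_mul', fst_mk, snd_mk, snd_mk, mul_zero, add_zero]
    have hm : mk 0 (a.fst * c) ∈ I ⊓ J :=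
      ⟨mem_of_snd _ h0 h2 h3, by rw [← e]; exact hJ a haJ _⟩
    rw [hbot] at hm
    exact mk_ne (Or.inr hc) ((AddSubgroup.mem_bot).1 hm)

/-- Q1 is false: there is a centrally essential ring whose additive group is free of finite rank
with an essential right ideal that is not a left ideal. -/
theorem result : ∃ (R : Type) (_ : Ring R),
    (∃ (ι : Type) (_ : Finite ι), Nonempty (R ≃+ (ι → ℤ))) ∧ CentrallyEssential R ∧
    ∃ I : AddSubgroup R, IsEssentialRightIdeal I ∧ ∃ r x : R, x ∈ I ∧ r * x ∉ I := by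
  refine ⟨R, inferInstance, ⟨Fin 6 ⊕ Fin 6, inferInstance, ⟨?_⟩⟩, centrallyEssential, I,
    essential_I, mk ey 0, mk ex 1, ?_, ?_⟩
  · exact
      { toFun := fun r => Sum.elim r.fst r.snd
        invFun := fun f => mk (fun i => f (Sum.inl i)) (fun i => f (Sum.inr i))
        left_inv := fun r => rfl
        right_inv := fun f => by
          funext i
          rcases i with i | i <;> rfl
        map_add' := fun r s => by
          funext i
          rcases i with i | i <;> rfl }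
  · rw [mem_I]
    exact ⟨rfl, rfl, rfl, rfl, rfl, rfl⟩
  · rw [mem_I]
    rintro ⟨-, -, -, -, -, h⟩
    rw [fst_mul', snd_mul'] at h
    simp only [fst_mk, snd_mk, add_app, mul2, mul3, mul4] at h
    have h1 : (1 : A) = oneA := rfl
    rw [h1] at h
    simp [ex, ey, oneA, zero_app] at h

end Pool.Agent.Results.MP_4595ea_al.EssentialRightIdeal
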